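import Mathlib
import Pool.Agent.V11261.LB.Contract

/-!
# Algebra-generating jump operators give Hamiltonian-independent contractivity (Q1 is true)

For every `d ≥ 2` and all jump operators `L_1, ..., L_m` generating `M_d(ℂ)` there are constants
`K, γ > 0`, the same for all Hermitian, measurable and locally bounded drives `H`, with
`‖E_{t,s} ρ - E_{t,s} σ‖₁ ≤ K e^{-γ (t - s)} ‖ρ - σ‖₁` for all density matrices.

Idea: along a solution `ρ(t)` of the master equation with `ρ(s) > 0` the determinant satisfies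
`(det ρ)' = det ρ (∑_j tr (ρ⁻¹ L_j ρ L_j†) - ∑_j tr L_j† L_j)`, and the drive drops out.  Since the
`L_j` have no common invariant subspace, `∑_j tr (ρ⁻¹ L_j ρ L_j†) ≥ c (det ρ)^{-1/(d(d-1))}`, so
after unit time `det ρ ≥ y₀` with `y₀` independent of the drive and of the initial state: a
Doeblin minorisation `E_{s+1,s} ρ ≥ y₀ tr(ρ) 1`, which gives the exponential contraction.
-/

set_option autoImplicit false

namespace Pool.Agent.Results.MP_4e5d1f_mp.GeneratingContractive

open Pool.Agent.V11261.LB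

theorem result : ∀ (d m : ℕ), 2 ≤ d → ∀ L : Fin m → Mat d,
    Algebra.adjoin ℂ (Set.range L) = ⊤ →
    ∃ K γ : ℝ, 0 < K ∧ 0 < γ ∧
      ∀ H : ℝ → Mat d, IsDrive H →
      ∀ E : ℝ → ℝ → Mat d →ₗ[ℂ] Mat d, IsPropagator H L E →
      ∀ ρ σ : Mat d, IsDensity ρ → IsDensity σ →
      ∀ s t : ℝ, 0 ≤ s → s ≤ t →
        traceNorm (E t s ρ - E t s σ) ≤ K * Real.exp (-(γ * (t - s))) * traceNorm (ρ - σ) :=
  fun _ _ hd _ hL => contractive hd hL

end Pool.Agent.Results.MP_4e5d1f_mp.GeneratingContractive
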